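import Pool.Agent.U798.GP.Spec
import Pool.Agent.U141.BV.CONV

/-!
# Project GQ, package TW: one twist by a function invariant under a group of residues
-/

set_option autoImplicit false

open MeasureTheory Filter Topology
open Pool.Agent.U798.BV Pool.Agent.U798.GP

namespace Pool.Agent.U44.GP

theorem t_TW : Pool.Agent.U798.GP.S_TW := by
  classical
  intro p q r m hr hm hp hq φ hφ
  haveI : Fact r.Prime := ⟨hr⟩
  haveI : NeZero r := ⟨hr.ne_zero⟩
  have hr0 : (r : ℝ) ≠ 0 := by exact_mod_cast hr.ne_zero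
  have hrc : (r : ℂ) ≠ 0 := by exact_mod_cast hr.ne_zero
  obtain ⟨ψ, hψ⟩ : ∃ ψ : AddChar (ZMod r) ℂ, ψ = ZMod.stdAddChar := ⟨_, rfl⟩
  have hψprim : ψ.IsPrimitive := by rw [hψ]; exact ZMod.isPrimitive_stdAddChar r
  have hψe : ∀ (k : ℤ) (x : ZMod r), e1 ((k : ℝ) * ((x.val : ℝ) / r)) = ψ (x * (k : ZMod r)) := by
    intro k x
    have h1 : x * (k : ZMod r) = (((x.val : ℤ) * k : ℤ) : ZMod r) := by
      push_cast
      rw [ZMod.natCast_zmod_val]
    rw [h1, hψ, ZMod.stdAddChar_coe]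
    unfold e1
    congr 1
    push_cast
    ring
  obtain ⟨W, hWdef⟩ : ∃ W : ZMod r → ℂ, W = fun a => (1 / (r : ℂ)) * ∑ x, φ x * ψ (-(a * x)) :=
    ⟨_, rfl⟩
  have hW : ∀ y : ZMod r, ∑ a, W a * ψ (a * y) = φ y := by
    intro y
    calc ∑ a, W a * ψ (a * y) = ∑ a : ZMod r, ∑ x, (1 / (r : ℂ)) * (φ x * ψ (a * (y - x))) := by
          refine Finset.sum_congr rfl fun a _ => ?_
          rw [hWdef]
          simp only
          rw [Finset.mul_sum, Finset.sum_mul]
          refine Finset.sum_congr rfl fun x _ => ?_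
          rw [mul_sub a, sub_eq_add_neg, AddChar.map_add_eq_mul]
          ring
      _ = ∑ x, (1 / (r : ℂ)) * (φ x * ∑ a, ψ (a * (y - x))) := by
          rw [Finset.sum_comm]
          refine Finset.sum_congr rfl fun x _ => ?_
          rw [Finset.mul_sum, Finset.mul_sum]
      _ = φ y := by
          rw [Finset.sum_eq_single y]
          · rw [AddChar.sum_mulShift _ hψprim, if_pos (sub_self y), ZMod.card]
            field_simp
          · intro x _ hx
            rw [AddChar.sum_mulShift _ hψprim, if_neg (sub_ne_zero.2 (Ne.symm hx))]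
            simp
          · intro h
            exact absurd (Finset.mem_univ y) h
  -- the group
  let H : Type := {g : ZMod r // g ^ m = 1}
  haveI : Fintype H := inferInstance
  obtain ⟨n, hn⟩ : ∃ n : ℕ, n = Fintype.card H := ⟨_, rfl⟩
  have hn0 : 0 < n := by
    rw [hn]
    exact Fintype.card_pos_iff.2 ⟨⟨1, one_pow m⟩⟩
  have e : Fin n ≃ H := (Fintype.equivFinOfCardEq hn.symm).symm
  have hperm : ∀ t : ℕ, (t : ZMod r) ^ m = 1 → ∀ a : ZMod r, ∃ σ : Equiv.Perm (Fin n), ∀ i, ∃ z : ℤ,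
      (t : ℝ) * ((((e i).1 * a).val : ℝ) / r) = ((((e (σ i)).1 * a).val : ℝ) / r) + z := by
    intro t ht a
    have ht0 : (t : ZMod r) ≠ 0 := by
      intro h
      rw [h, zero_pow (by omega)] at ht
      exact zero_ne_one ht
    let f : H → H := fun g => ⟨(t : ZMod r) * g.1, by rw [mul_pow, ht, g.2, one_mul]⟩
    have hf : Function.Injective f := fun g g' h =>
      Subtype.ext (mul_left_cancel₀ ht0 (congrArg Subtype.val h))
    let σH : Equiv.Perm H := Equiv.ofBijective f (Finite.injective_iff_bijective.1 hf)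
    refine ⟨(e.trans σH).trans e.symm, fun i => ?_⟩
    have h1 : (e (((e.trans σH).trans e.symm) i)).1 = (t : ZMod r) * (e i).1 := by
      simp only [Equiv.trans_apply, Equiv.apply_symm_apply]
      rfl
    rw [h1]
    have h2 : ((((t : ℤ) * (((e i).1 * a).val : ℤ) - (((t : ZMod r) * (e i).1 * a).val : ℤ)) : ℤ) :
        ZMod r) = 0 := by
      push_cast
      rw [ZMod.natCast_zmod_val, ZMod.natCast_zmod_val]
      ring
    obtain ⟨z, hz⟩ := (ZMod.intCast_zmod_eq_zero_iff_dvd _ r).1 h2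
    refine ⟨z, ?_⟩
    have hz' : (t : ℝ) * (((e i).1 * a).val : ℝ) - (((t : ZMod r) * (e i).1 * a).val : ℝ) =
        r * z := by exact_mod_cast hz
    have h3 : (t : ℝ) * (((e i).1 * a).val : ℝ) =
        (((t : ZMod r) * (e i).1 * a).val : ℝ) + r * z := by linarith
    rw [← mul_div_assoc, h3, add_div, mul_div_cancel_left₀ _ hr0]
  refine ⟨fun a => W (ZMod.finEquiv r a), fun μ hμ => ?_⟩
  choose ν hν1 hν2 hν3 hν4 using fun a : Fin r => Pool.Agent.U141.BV.t_CONV n
    (fun i => ((((e i).1 * (ZMod.finEquiv r a)).val : ℝ) / r)) hn0 μ hμ.1 hμ.2.1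
  refine ⟨ν, fun a => ⟨hν1 a, hν2 a, hν4 a p hμ.2.2.1 (hperm p hp _), hν4 a q hμ.2.2.2 (hperm q hq _)⟩,
    fun k => ?_⟩
  have hnc : (n : ℂ) ≠ 0 := by exact_mod_cast hn0.ne'
  have key : ∀ a : Fin r, W (ZMod.finEquiv r a) * hc (ν a) k =
      (∑ i, W (ZMod.finEquiv r a) * ψ (ZMod.finEquiv r a * ((e i).1 * (k : ZMod r)))) / n *
        hc μ k := by
    intro a
    unfold hc
    rw [hν3 a k, ← Finset.mul_sum, ← mul_assoc, mul_div_assoc]
    congr 3
    refine Finset.sum_congr rfl fun i _ => ?_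
    rw [hψe]
    congr 1
    ring
  rw [Finset.sum_congr rfl fun a _ => key a, ← Finset.sum_mul, ← Finset.sum_div, Finset.sum_comm]
  have h2 : ∀ i : Fin n, ∑ a : Fin r, W (ZMod.finEquiv r a) *
      ψ (ZMod.finEquiv r a * ((e i).1 * (k : ZMod r))) = φ (k : ZMod r) := by
    intro i
    rw [← hφ (e i).1 (k : ZMod r) (e i).2, ← hW ((e i).1 * (k : ZMod r))]
    exact Equiv.sum_comp (ZMod.finEquiv r).toEquiv
      (fun a : ZMod r => W a * ψ (a * ((e i).1 * (k : ZMod r))))
  rw [Finset.sum_congr rfl fun i _ => h2 i, Finset.sum_const, Finset.card_univ, Fintype.card_fin,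
    nsmul_eq_mul, mul_div_cancel_left₀ _ hnc]

end Pool.Agent.U44.GP
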